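import Pool.Agent.TH526.ZT.F
import Pool.Agent.Y199.NN.Farkas

/-!
Intersections of a subvariety of a torus with cosets of algebraic subgroups: the values of the
coordinates at a place are moved to a rational point of the tropicalization, and the criterion for
the absence of atypical intersections (helper file).
-/

set_option autoImplicit false

namespace Pool.Agent.Y199.ZF

open MvPolynomial Pool.Agent.H173R3.ZT Pool.Agent.TH526.ZT
open Pool.Agent.Results.MP_b7926e_nt.NoAtypical (coset idealOf dim mem_idealOf)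

/-- In a vanishing sum two of the terms of maximal value have the same value. -/
theorem exists_pair_val {K ι : Type*} [Field K] (V : ValuationSubring K) (A : Finset ι)
    (hA : A.Nonempty) (z : ι → K) (hz : ∀ i ∈ A, z i ≠ 0) (h0 : ∑ i ∈ A, z i = 0) :
    ∃ a ∈ A, ∃ b ∈ A, a ≠ b ∧ V.valuation (z a) = V.valuation (z b) ∧
      ∀ i ∈ A, V.valuation (z i) ≤ V.valuation (z a) := by
  classical
  obtain ⟨a, ha, hmax⟩ := A.exists_max_image (fun i => V.valuation (z i)) hA
  by_contra hcon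
  push Not at hcon
  have hlt : ∀ b ∈ A.erase a, V.valuation (z b) < V.valuation (z a) := by
    intro b hb
    obtain ⟨hba, hbA⟩ := Finset.mem_erase.1 hb
    refine lt_of_le_of_ne (hmax b hbA) fun h => ?_
    obtain ⟨i, hi, h1⟩ := hcon a ha b hbA (Ne.symm hba) h.symm
    exact absurd (hmax i hi) (not_le.2 h1)
  have h1 : V.valuation (∑ b ∈ A.erase a, z b) < V.valuation (z a) :=
    Valuation.map_sum_lt _ ((Valuation.ne_zero_iff _).2 (hz a ha)) hlt
  have h2 : z a = - ∑ b ∈ A.erase a, z b := by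
    rw [← Finset.add_sum_erase A z ha] at h0
    exact eq_neg_of_add_eq_zero_left h0
  have h3 : V.valuation (z a) = V.valuation (∑ b ∈ A.erase a, z b) := by
    conv_lhs => rw [h2]
    rw [Valuation.map_neg]
  exact absurd h3 h1.ne'

/-- powers of an element less than one -/
theorem zpow_lt_one {Γ₀ : Type*} [LinearOrderedCommGroupWithZero Γ₀] {π : Γ₀} (h0 : π ≠ 0)
    (h1 : π < 1) {z : ℤ} (hz : π ^ z ≤ 1) : 0 ≤ z := by
  by_contra hneg
  push Not at hneg
  obtain ⟨q, hq⟩ : ∃ q : ℕ, z = -((q : ℤ) + 1) := ⟨(-z - 1).toNat, by omega⟩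
  rw [hq, zpow_neg] at hz
  have h2 : π ^ (((q : ℤ) + 1)) = π ^ (q + 1) := by
    rw [← zpow_natCast]
    norm_cast
  rw [h2] at hz
  have h3 : π ^ (q + 1) < 1 := pow_lt_one₀ zero_le h1 (Nat.succ_ne_zero q)
  have h4 : π ^ (q + 1) ≠ 0 := pow_ne_zero _ h0
  have h5 : 1 < (π ^ (q + 1))⁻¹ := (one_lt_inv₀ (zero_lt_iff.2 h4)).2 h3
  exact absurd hz (not_le.2 h5)

/-- A point with coordinates in an ordered group, which satisfies finitely many linear inequalities,
gives a rational point which satisfies them. -/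
theorem transfer {Γ₀ : Type*} [LinearOrderedCommGroupWithZero Γ₀] {ι : Type} [Fintype ι] {n : ℕ}
    (a : ι → Fin n → ℤ) (z : ι → ℤ) (y : Fin n → Γ₀) (hy : ∀ i, y i ≠ 0) (π : Γ₀) (hπ0 : π ≠ 0)
    (hπ1 : π < 1) (h : ∀ i, (∏ l, y l ^ a i l) * π ^ z i ≤ 1) :
    ∃ w : Fin n → ℚ, ∀ i, 0 ≤ ∑ l, (a i l : ℚ) * w l + z i := by
  classical
  by_contra hcon
  push Not at hcon
  let q := Fintype.card ι
  let eι : ι ≃ Fin q := Fintype.equivFin ι
  let U := (Fin n → ℚ) × ℚ
  -- the functionals, with negative sign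
  let L : Fin q → (U →ₗ[ℚ] ℚ) := fun b =>
    -((∑ l, (a (eι.symm b) l : ℚ) • (LinearMap.proj l).comp (LinearMap.fst ℚ (Fin n → ℚ) ℚ)) +
      (z (eι.symm b) : ℚ) • LinearMap.snd ℚ (Fin n → ℚ) ℚ)
  have hL : ∀ b (u : U), L b u =
      -(∑ l, (a (eι.symm b) l : ℚ) * u.1 l + (z (eι.symm b) : ℚ) * u.2) := by
    intro b u
    simp only [L, LinearMap.neg_apply, LinearMap.add_apply, LinearMap.sum_apply,
      LinearMap.smul_apply, LinearMap.comp_apply, LinearMap.proj_apply, smul_eq_mul]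
    rfl
  obtain ⟨c, hc, hf⟩ := Pool.Agent.TH216.MF.farkas_lin q L (LinearMap.snd ℚ (Fin n → ℚ) ℚ) (by
    intro u hu
    rw [LinearMap.snd_apply]
    by_contra hneg
    push Not at hneg
    obtain ⟨i, hi⟩ := hcon (fun l => u.1 l / u.2)
    have h1 := hu (eι i)
    rw [hL, Equiv.symm_apply_apply] at h1
    have h2 : ∑ l, (a i l : ℚ) * u.1 l + (z i : ℚ) * u.2 =
        u.2 * (∑ l, (a i l : ℚ) * (u.1 l / u.2) + z i) := by
      rw [mul_add, Finset.mul_sum]
      congr 1
      · refine Finset.sum_congr rfl fun l _ => ?_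
        field_simp
      · ring
    rw [h2] at h1
    have h3 := mul_neg_of_pos_of_neg hneg hi
    linarith)
  have hf' : ∀ x : (Fin n → ℚ) × ℚ, x.2 = ∑ i, c i * L i x := hf
  obtain ⟨d, m, hd, hm⟩ := Pool.Agent.Y199.NN.clear c hc
  -- the coefficients
  have hw : ∀ l, ∑ b, (m b : ℤ) * a (eι.symm b) l = 0 := by
    intro l
    have h1 := hf' (Pi.single l 1, 0)
    simp only [hL, mul_zero, add_zero] at h1
    have h2 : ∀ b, ∑ l', (a (eι.symm b) l' : ℚ) * (Pi.single l 1 : Fin n → ℚ) l' =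
        (a (eι.symm b) l : ℚ) := by
      intro b
      rw [Finset.sum_eq_single l]
      · rw [Pi.single_eq_same, mul_one]
      · intro l' _ hl'
        rw [Pi.single_eq_of_ne hl', mul_zero]
      · intro hl
        exact absurd (Finset.mem_univ l) hl
    simp only [h2] at h1
    have h3 : ((∑ b, (m b : ℤ) * a (eι.symm b) l : ℤ) : ℚ) = 0 := by
      push_cast
      have h4 : ∀ b, (m b : ℚ) * (a (eι.symm b) l : ℚ) =
          -((d : ℚ) * (c b * -(a (eι.symm b) l : ℚ))) := by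
        intro b
        rw [hm b]
        ring
      simp only [h4, Finset.sum_neg_distrib, ← Finset.mul_sum]
      rw [← h1]
      simp
    exact_mod_cast h3
  have hz : ∑ b, (m b : ℤ) * z (eι.symm b) = -(d : ℤ) := by
    have h1 := hf' (0, 1)
    simp only [hL, mul_one, Pi.zero_apply, mul_zero, Finset.sum_const_zero, zero_add] at h1
    have h3 : ((∑ b, (m b : ℤ) * z (eι.symm b) : ℤ) : ℚ) = -(d : ℚ) := by
      push_cast
      have h4 : ∀ b, (m b : ℚ) * (z (eι.symm b) : ℚ) =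
          -((d : ℚ) * (c b * -(z (eι.symm b) : ℚ))) := by
        intro b
        rw [hm b]
        ring
      simp only [h4, Finset.sum_neg_distrib, ← Finset.mul_sum]
      rw [← h1]
      simp
    exact_mod_cast h3
  -- the product of the inequalities
  have hprod : ∏ b, ((∏ l, y l ^ a (eι.symm b) l) * π ^ z (eι.symm b)) ^ m b ≤ 1 := by
    refine Finset.prod_le_one' fun b _ => ?_
    exact pow_le_one' (h _) _
  have heq : ∏ b, ((∏ l, y l ^ a (eι.symm b) l) * π ^ z (eι.symm b)) ^ m b =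
      π ^ (-(d : ℤ)) := by
    have h1 : ∀ b, ((∏ l, y l ^ a (eι.symm b) l) * π ^ z (eι.symm b)) ^ m b =
        (∏ l, y l ^ ((m b : ℤ) * a (eι.symm b) l)) * π ^ ((m b : ℤ) * z (eι.symm b)) := by
      intro b
      rw [mul_pow, ← Finset.prod_pow]
      congr 1
      · refine Finset.prod_congr rfl fun l _ => ?_
        rw [mul_comm, zpow_mul, zpow_natCast]
      · rw [mul_comm, zpow_mul, zpow_natCast]
    have hzs : ∀ (x : Γ₀), x ≠ 0 → ∀ f : Fin q → ℤ, ∏ b, x ^ f b = x ^ ∑ b, f b := by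
      intro x hx f
      induction (Finset.univ : Finset (Fin q)) using Finset.induction_on with
      | empty => simp
      | insert b s hb ih => rw [Finset.prod_insert hb, Finset.sum_insert hb, ih, zpow_add₀ hx]
    simp only [h1]
    rw [Finset.prod_mul_distrib, Finset.prod_comm, hzs π hπ0, hz]
    have h2 : ∏ l, ∏ b, y l ^ ((m b : ℤ) * a (eι.symm b) l) = 1 := by
      refine Finset.prod_eq_one fun l _ => ?_
      rw [hzs _ (hy l), hw l, zpow_zero]
    rw [h2, one_mul]
  rw [heq] at hprod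
  have := zpow_lt_one hπ0 hπ1 hprod
  omega

variable {n m : ℕ}

/-- The tropicalization of a system of Laurent polynomials with the supports `A j`, the coefficients
of which have the orders `e j β`. -/
def Trop (A : Fin m → Finset (Fin n → ℤ)) (e : Fin m → (Fin n → ℤ) → ℤ) : Set (Fin n → ℚ) :=
  {w | ∀ j, ∃ a ∈ A j, ∃ b ∈ A j, a ≠ b ∧
    (e j a : ℚ) + ∑ i, (a i : ℚ) * w i = (e j b : ℚ) + ∑ i, (b i : ℚ) * w i ∧
    ∀ β ∈ A j, (e j a : ℚ) + ∑ i, (a i : ℚ) * w i ≤ (e j β : ℚ) + ∑ i, (β i : ℚ) * w i}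

/-- The linear space orthogonal to `Λ`. -/
def perp (Λ : Submodule ℤ (Fin n → ℤ)) : Submodule ℚ (Fin n → ℚ) where
  carrier := {w | ∀ a ∈ Λ, ∑ i, (a i : ℚ) * w i = 0}
  zero_mem' := fun a _ => by simp
  add_mem' := fun {x y} hx hy a ha => by
    have h1 : ∑ i, (a i : ℚ) * (x + y) i = ∑ i, (a i : ℚ) * x i + ∑ i, (a i : ℚ) * y i := by
      rw [← Finset.sum_add_distrib]
      refine Finset.sum_congr rfl fun i _ => ?_
      rw [Pi.add_apply]
      ring
    rw [h1, hx a ha, hy a ha, add_zero]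
  smul_mem' := fun c x hx a ha => by
    have h1 : ∑ i, (a i : ℚ) * (c • x) i = c * ∑ i, (a i : ℚ) * x i := by
      rw [Finset.mul_sum]
      refine Finset.sum_congr rfl fun i _ => ?_
      rw [Pi.smul_apply, smul_eq_mul]
      ring
    rw [h1, hx a ha, mul_zero]

theorem mem_perp {Λ : Submodule ℤ (Fin n → ℤ)} {w : Fin n → ℚ} :
    w ∈ perp Λ ↔ ∀ a ∈ Λ, ∑ i, (a i : ℚ) * w i = 0 := Iff.rfl

theorem mem_perp_of_basis {Λ : Submodule ℤ (Fin n → ℤ)} {ι : Type} [Fintype ι]
    (b : Module.Basis ι ℤ Λ) {w : Fin n → ℚ}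
    (h1 : ∀ i, ∑ l, (((b i : Fin n → ℤ) l : ℤ) : ℚ) * w l = 0) : w ∈ perp Λ := by
  rw [mem_perp]
  intro a ha
  have h2 : (⟨a, ha⟩ : Λ) = ∑ i, b.repr ⟨a, ha⟩ i • b i := (b.sum_repr _).symm
  have h3 : a = ∑ i, b.repr ⟨a, ha⟩ i • (b i : Fin n → ℤ) := by
    have h5 := congrArg Λ.subtype h2
    rw [map_sum] at h5
    exact h5
  have h4 : ∀ l, (a l : ℚ) =
      ∑ i, (b.repr ⟨a, ha⟩ i : ℚ) * (((b i : Fin n → ℤ) l : ℤ) : ℚ) := by
    intro l
    have h5 := congrFun h3 l
    rw [Finset.sum_apply] at h5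
    have h6 := congrArg (fun z : ℤ => (z : ℚ)) h5
    simp only [Pi.smul_apply, smul_eq_mul] at h6
    push_cast at h6
    exact h6
  simp only [h4, Finset.sum_mul]
  rw [Finset.sum_comm]
  refine Finset.sum_eq_zero fun i _ => ?_
  have h5 : ∑ l, (b.repr ⟨a, ha⟩ i : ℚ) * (((b i : Fin n → ℤ) l : ℤ) : ℚ) * w l =
      (b.repr ⟨a, ha⟩ i : ℚ) * ∑ l, (((b i : Fin n → ℤ) l : ℤ) : ℚ) * w l := by
    rw [Finset.mul_sum]
    exact Finset.sum_congr rfl fun l _ => mul_assoc _ _ _
  rw [h5, h1 i, mul_zero]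

/-- the dimension of the orthogonal space -/
theorem finrank_perp (Λ : Submodule ℤ (Fin n → ℤ)) :
    Module.finrank ℚ (perp Λ) + Module.finrank ℤ Λ = n := by
  classical
  let b := Module.Free.chooseBasis ℤ Λ
  let ι := Module.Free.ChooseBasisIndex ℤ Λ
  let Mx : Matrix ι (Fin n) ℚ := fun i l => (((b i : Fin n → ℤ) l : ℤ) : ℚ)
  have hker : LinearMap.ker Mx.mulVecLin = perp Λ := by
    ext w
    rw [LinearMap.mem_ker]
    constructor
    · intro h
      exact mem_perp_of_basis b fun i => congrFun h i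
    · intro h
      funext i
      exact h _ (b i).2
  have hli : LinearIndependent ℚ Mx.row := by
    have h1 : LinearIndependent ℤ (fun i => (b i : Fin n → ℤ)) :=
      b.linearIndependent.map' Λ.subtype (Submodule.ker_subtype Λ)
    rw [Fintype.linearIndependent_iff] at h1 ⊢
    intro g hg i
    -- clear the denominators
    let D : ℕ := ∏ i, (g i).den
    have hD : (D : ℚ) ≠ 0 := by
      exact_mod_cast (Finset.prod_pos fun i _ => (g i).den_pos : 0 < D).ne'
    have hint : ∀ i, ∃ k : ℤ, (k : ℚ) = D * g i := by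
      intro i
      refine ⟨(∏ c ∈ Finset.univ.erase i, ((g c).den : ℤ)) * (g i).num, ?_⟩
      have h3 : ((g i).num : ℚ) = (g i).den * g i := by
        rw [mul_comm]
        exact (Rat.mul_den_eq_num (g i)).symm
      push_cast
      rw [h3]
      have h4 : (D : ℚ) = (∏ c ∈ Finset.univ.erase i, ((g c).den : ℚ)) * (g i).den := by
        simp only [D]
        push_cast
        rw [Finset.prod_erase_mul _ _ (Finset.mem_univ i)]
      rw [h4]
      ring
    choose k hk using hint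
    have h2 : ∑ i, k i • (b i : Fin n → ℤ) = 0 := by
      funext l
      have h3 := congrFun hg l
      rw [Finset.sum_apply] at h3
      have h4 : ((∑ i, k i • (b i : Fin n → ℤ)) l : ℚ) = D * ∑ i, (g i • Mx.row i) l := by
        rw [Finset.sum_apply, Int.cast_sum, Finset.mul_sum]
        refine Finset.sum_congr rfl fun i _ => ?_
        rw [Pi.smul_apply, Pi.smul_apply, smul_eq_mul, smul_eq_mul, Int.cast_mul, hk i]
        change _ = (D : ℚ) * (g i * (((b i : Fin n → ℤ) l : ℤ) : ℚ))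
        ring
      rw [h3] at h4
      have h5 : ((∑ i, k i • (b i : Fin n → ℤ)) l : ℚ) = 0 := by
        rw [h4]
        simp
      exact_mod_cast h5
    have h3 := h1 k h2 i
    have h4 := hk i
    rw [h3] at h4
    have h5 : (D : ℚ) * g i = 0 := by
      rw [← h4]
      simp
    exact (mul_eq_zero.1 h5).resolve_left hD
  have hrank := hli.rank_matrix
  have h1 := LinearMap.finrank_range_add_finrank_ker Mx.mulVecLin
  rw [hker, Module.finrank_fin_fun] at h1
  have h2 : Module.finrank ℚ (LinearMap.range Mx.mulVecLin) = Module.finrank ℤ Λ := by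
    change Mx.rank = _
    rw [hrank, Module.finrank_eq_card_chooseBasisIndex]
  omega

/-- **The criterion.** A system of Laurent polynomials, the coefficients of which have the orders
`e l` at the places `V l`, has no atypical intersection with a coset by units if no linear space of
dimension less than `r` meets all the tropicalizations. -/
theorem crit {N r : ℕ} (A : Fin m → Finset (Fin n → ℤ)) (hA : ∀ j, (A j).Nonempty)
    (b : Fin m → (Fin n → ℤ) → ℂ) (hb : ∀ j, ∀ a ∈ A j, b j a ≠ 0)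
    (V : Fin N → ValuationSubring ℂ) (π : Fin N → ℂ) (hπ0 : ∀ l, π l ≠ 0)
    (hπ1 : ∀ l, (V l).valuation (π l) < 1) (e : Fin N → Fin m → (Fin n → ℤ) → ℤ)
    (he : ∀ l j, ∀ a ∈ A j, (V l).valuation (b j a) = (V l).valuation (π l) ^ e l j a)
    (hgen : ∀ L : Submodule ℚ (Fin n → ℚ), Module.finrank ℚ L < r →
      ∃ l, ∀ w ∈ L, w ∉ Trop A (e l))
    (M : Submodule ℤ (Fin n → ℤ)) (η : Fin n → ℂ) (hη0 : ∀ i, η i ≠ 0)
    (hη : ∀ l i, (V l).valuation (η i) = 1) (W : Set (Fin n → ℂ)) (hWV : W ⊆ sys A b)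
    (hWT : W ⊆ coset M η) (hW : (idealOf W).IsPrime) :
    dim W + (r : Cardinal) + (Module.finrank ℤ M : Cardinal) ≤ (n : Cardinal) := by
  classical
  by_contra hcon
  push Not at hcon
  obtain ⟨y, hy0, hyW, Λ, hΛr, hΛ⟩ := exists_special W hW M η hη0 hWT
  have hysys : ∀ j, ∑ α ∈ A j, b j α * ∏ l, y l ^ α l = 0 := fun j =>
    laurent_vanish W (fun x hx => (hWV hx).1) (A j) (b j) (fun x hx => (hWV hx).2 j) y hy0 hyW
  have hrank : n < r + Module.finrank ℤ Λ := by
    have h1 : (n : Cardinal) < ((r + Module.finrank ℤ Λ : ℕ) : Cardinal) := by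
      refine hcon.trans_le ?_
      calc dim W + (r : Cardinal) + (Module.finrank ℤ M : Cardinal)
          = (r : Cardinal) + (dim W + (Module.finrank ℤ M : Cardinal)) := by
            rw [add_comm (dim W), add_assoc]
        _ ≤ (r : Cardinal) + (Module.finrank ℤ Λ : Cardinal) := by gcongr
        _ = _ := by push_cast; rfl
    exact_mod_cast h1
  obtain ⟨l, hl⟩ := hgen (perp Λ) (by
    have := finrank_perp Λ
    omega)
  -- the values at the place `l`
  let v := (V l).valuation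
  have hvy : ∀ i, v (y i) ≠ 0 := fun i => (Valuation.ne_zero_iff _).2 (hy0 i)
  have hchr : ∀ a : Fin n → ℤ, ∏ i, v (y i) ^ a i = v (∏ i, y i ^ a i) := by
    intro a
    rw [map_prod]
    exact Finset.prod_congr rfl fun i _ => (map_zpow₀ _ _ _).symm
  have hvη : ∀ a : Fin n → ℤ, v (chr η a) = 1 := by
    intro a
    rw [chr, map_prod]
    refine Finset.prod_eq_one fun i _ => ?_
    rw [map_zpow₀, hη l i, one_zpow]
  have hvΛ : ∀ a ∈ Λ, ∏ i, v (y i) ^ a i = 1 := by
    intro a ha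
    obtain ⟨k, hk, h2⟩ := hΛ a ha
    rw [hchr]
    have h3 := congrArg v h2
    rw [map_pow, map_one, map_div₀, hvη, div_one] at h3
    exact (pow_eq_one_iff_of_nonneg zero_le hk.ne').1 h3
  have hz : ∀ j, ∀ a ∈ A j, b j a * ∏ i, y i ^ a i ≠ 0 := fun j a ha =>
    mul_ne_zero (hb j a ha) (Finset.prod_ne_zero_iff.2 fun i _ => zpow_ne_zero _ (hy0 i))
  choose a ha b' hb' hab hval hmax using fun j =>
    exists_pair_val (V l) (A j) (hA j) (fun a => b j a * ∏ i, y i ^ a i) (hz j) (hysys j)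
  let B := Module.Free.chooseBasis ℤ Λ
  let ι := Module.Free.ChooseBasisIndex ℤ Λ
  let vec : (ι ⊕ ι) ⊕ (Fin m ⊕ (Σ j : Fin m, {β // β ∈ A j})) → Fin n → ℤ :=
    Sum.elim (Sum.elim (fun i => (B i : Fin n → ℤ)) (fun i => -(B i : Fin n → ℤ)))
      (Sum.elim (fun j => a j - b' j) (fun x => (x.2 : Fin n → ℤ) - a x.1))
  let zz : (ι ⊕ ι) ⊕ (Fin m ⊕ (Σ j : Fin m, {β // β ∈ A j})) → ℤ :=
    Sum.elim (Sum.elim (fun _ => 0) (fun _ => 0))
      (Sum.elim (fun j => e l j (a j) - e l j (b' j)) (fun x => e l x.1 x.2 - e l x.1 (a x.1)))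
  have hπv : v (π l) ≠ 0 := (Valuation.ne_zero_iff _).2 (hπ0 l)
  have hterm : ∀ j, ∀ α ∈ A j, ∀ β ∈ A j,
      (∏ i, v (y i) ^ (α - β) i) * v (π l) ^ (e l j α - e l j β) =
        v (b j α * ∏ i, y i ^ α i) / v (b j β * ∏ i, y i ^ β i) := by
    intro j α hα β hβ
    have h1 : ∏ i, v (y i) ^ (α - β) i = (∏ i, v (y i) ^ α i) / ∏ i, v (y i) ^ β i := by
      rw [← Finset.prod_div_distrib]
      refine Finset.prod_congr rfl fun i _ => ?_
      rw [Pi.sub_apply, zpow_sub₀ (hvy i)]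
    rw [h1, zpow_sub₀ hπv, map_mul, map_mul, he l j α hα, he l j β hβ, ← hchr, ← hchr]
    rw [div_mul_div_comm, mul_comm (∏ i, v (y i) ^ α i), mul_comm (∏ i, v (y i) ^ β i)]
  obtain ⟨w, hw⟩ := transfer vec zz (fun i => v (y i)) hvy (v (π l)) hπv (hπ1 l) (by
    rintro ((i | i) | (j | ⟨j, β, hβ⟩))
    · change (∏ k, v (y k) ^ (B i : Fin n → ℤ) k) * v (π l) ^ (0 : ℤ) ≤ 1
      rw [zpow_zero, mul_one, hvΛ _ (B i).2]
    · change (∏ k, v (y k) ^ (-(B i : Fin n → ℤ)) k) * v (π l) ^ (0 : ℤ) ≤ 1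
      rw [zpow_zero, mul_one, hvΛ _ (Λ.neg_mem (B i).2)]
    · change (∏ k, v (y k) ^ (a j - b' j) k) * v (π l) ^ (e l j (a j) - e l j (b' j)) ≤ 1
      rw [hterm j _ (ha j) _ (hb' j)]
      have h1 : v (b j (a j) * ∏ i, y i ^ a j i) = v (b j (b' j) * ∏ i, y i ^ b' j i) := hval j
      rw [h1, div_self ((Valuation.ne_zero_iff _).2 (hz j _ (hb' j)))]
    · change (∏ k, v (y k) ^ (β - a j) k) * v (π l) ^ (e l j β - e l j (a j)) ≤ 1
      rw [hterm j _ hβ _ (ha j)]
      exact div_le_one_of_le₀ (hmax j β hβ) zero_le)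
  refine hl w (mem_perp_of_basis B fun i => ?_) fun j => ?_
  · have h1 := hw (Sum.inl (Sum.inl i))
    have h2 := hw (Sum.inl (Sum.inr i))
    simp only [vec, zz, Sum.elim_inl, Sum.elim_inr, Int.cast_zero, add_zero, Pi.neg_apply,
      Int.cast_neg, neg_mul, Finset.sum_neg_distrib] at h1 h2
    linarith
  · have hdiff : ∀ α β : Fin n → ℤ, ∑ k, (((α - β) k : ℤ) : ℚ) * w k =
        ∑ k, (α k : ℚ) * w k - ∑ k, (β k : ℚ) * w k := by
      intro α β
      rw [← Finset.sum_sub_distrib]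
      refine Finset.sum_congr rfl fun k _ => ?_
      rw [Pi.sub_apply]
      push_cast
      ring
    have h3 : ∀ β ∈ A j, (e l j (a j) : ℚ) + ∑ i, (a j i : ℚ) * w i ≤
        (e l j β : ℚ) + ∑ i, (β i : ℚ) * w i := by
      intro β hβ
      have h1 := hw (Sum.inr (Sum.inr ⟨j, β, hβ⟩))
      simp only [vec, zz, Sum.elim_inr, hdiff] at h1
      push_cast at h1
      linarith
    refine ⟨a j, ha j, b' j, hb' j, hab j, le_antisymm (h3 _ (hb' j)) ?_, h3⟩
    have h1 := hw (Sum.inr (Sum.inl j))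
    simp only [vec, zz, Sum.elim_inr, Sum.elim_inl, hdiff] at h1
    push_cast at h1
    linarith

end Pool.Agent.Y199.ZF
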