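import Pool.Agent.Y152.BD.Fam
import Pool.Agent.Y199.ZF.Crit

/-!
One-parameter families of systems of Laurent polynomials: valuation rings in which the orders of the
coefficients are those at a degenerate member (helper file).
-/

set_option autoImplicit false

namespace Pool.Agent.Y199.ZF

open MvPolynomial Pool.Agent.TH526.ZL

variable {k : Type} [Field k] [Algebra k ℂ]

theorem v_aeval_sub (V : ValuationSubring ℂ) (q : Polynomial k)
    (hq : ∀ i, algebraMap k ℂ (q.coeff i) ∈ V) {t : ℂ} {α : k} (hα : algebraMap k ℂ α ∈ V)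
    (h : V.valuation (t - algebraMap k ℂ α) < 1) :
    V.valuation (Polynomial.aeval t q - algebraMap k ℂ (q.eval α)) < 1 := by
  have ht : t ∈ V := by
    have h1 : t = (t - algebraMap k ℂ α) + algebraMap k ℂ α := by rw [sub_add_cancel]
    rw [h1]
    exact add_mem ((ValuationSubring.valuation_le_one_iff _ _).1 h.le) hα
  have h1 := v_eval_sub (k := ℂ) V (q.map (algebraMap k ℂ)) (fun i => by
    rw [Polynomial.coeff_map]
    exact hq i) (τ := t) (α := algebraMap k ℂ α) ht hα h
  have h2 : (q.map (algebraMap k ℂ)).eval t = Polynomial.aeval t q :=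
    Polynomial.eval_map_algebraMap _ _
  have h3 : (q.map (algebraMap k ℂ)).eval (algebraMap k ℂ α) = algebraMap k ℂ (q.eval α) := by
    rw [Polynomial.eval_map, Polynomial.eval₂_at_apply]
  rw [h2, h3] at h1
  exact h1

/-- The values of the coefficients near the degenerate members. -/
theorem near {m n M : ℕ} (A : Fin m → Finset (Fin n → ℤ))
    (c : Fin m → (Fin n → ℤ) → Polynomial k) (hc : ∀ j, ∀ a ∈ A j, c j a ≠ 0) (α : Fin M → k)
    (Γ : Set k) (hΓ : Γ.Finite) :
    ∃ W : Set k, W.Finite ∧ Γ ⊆ W ∧ ∀ V : ValuationSubring ℂ, (∀ z ∈ W, algebraMap k ℂ z ∈ V) →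
      ∀ (l : Fin M) (t : ℂ), V.valuation (t - algebraMap k ℂ (α l)) < 1 → ∀ j, ∀ a ∈ A j,
        V.valuation (Polynomial.aeval t (c j a)) =
          V.valuation (t - algebraMap k ℂ (α l)) ^ (c j a).rootMultiplicity (α l) := by
  classical
  have hq : ∀ (l : Fin M) (x : Σ j : Fin m, {a // a ∈ A j}), ∃ q : Polynomial k,
      c x.1 x.2 = (Polynomial.X - Polynomial.C (α l)) ^
        (c x.1 x.2).rootMultiplicity (α l) * q ∧ q.eval (α l) ≠ 0 := by
    intro l x
    obtain ⟨q, hq1, hq2⟩ :=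
      Polynomial.exists_eq_pow_rootMultiplicity_mul_and_not_dvd (c x.1 x.2)
        (hc x.1 x.2 x.2.2) (α l)
    refine ⟨q, hq1, fun h => hq2 ?_⟩
    rw [Polynomial.dvd_iff_isRoot]
    exact h
  choose q hq1 hq2 using hq
  let W1 : Set k := (⋃ l, ⋃ x, coefs1 (q l x)) ∪
    (Set.range fun y : Fin M × (Σ j : Fin m, {a // a ∈ A j}) => (q y.1 y.2).eval (α y.1))
  have hW1 : W1.Finite :=
    Set.Finite.union (Set.finite_iUnion fun l => Set.finite_iUnion fun x => coefs1_finite _)
      (Set.finite_range _)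
  let W2 : Set k := W1 ∪ ((fun z => z⁻¹) '' W1 ∪ (Set.range α ∪ Γ))
  refine ⟨W2, hW1.union ((hW1.image _).union ((Set.finite_range _).union hΓ)),
    fun z hz => Or.inr (Or.inr (Or.inr hz)), fun V hV l t ht j a ha => ?_⟩
  have hW1V : ∀ z ∈ W1, algebraMap k ℂ z ∈ V := fun z hz => hV z (Or.inl hz)
  have hW1V' : ∀ z ∈ W1, algebraMap k ℂ z⁻¹ ∈ V := fun z hz =>
    hV _ (Or.inr (Or.inl ⟨z, hz, rfl⟩))
  have hαV : algebraMap k ℂ (α l) ∈ V := hV _ (Or.inr (Or.inr (Or.inl ⟨l, rfl⟩)))
  let x : Σ j : Fin m, {a // a ∈ A j} := ⟨j, a, ha⟩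
  have h1 : V.valuation (Polynomial.aeval t (q l x)) = 1 := by
    have h2 : V.valuation (algebraMap k ℂ ((q l x).eval (α l))) = 1 :=
      v_unit V hW1V hW1V' (Or.inr ⟨(l, x), rfl⟩) (hq2 _ _)
    have h3 := v_aeval_sub V (q l x) (coefs1_mem V fun z hz => hW1V z
      (Or.inl (Set.mem_iUnion.2 ⟨l, Set.mem_iUnion.2 ⟨x, hz⟩⟩))) hαV ht
    rw [← h2]
    refine Valuation.map_eq_of_sub_lt _ ?_
    rw [h2]
    exact h3
  have h2 : c j a = (Polynomial.X - Polynomial.C (α l)) ^
      (c j a).rootMultiplicity (α l) * q l x := hq1 l x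
  conv_lhs => rw [h2]
  rw [map_mul, map_pow, map_sub, Polynomial.aeval_X, Polynomial.aeval_C, map_mul, h1, mul_one,
    map_pow]

/-- The places for a transcendental parameter. -/
theorem exists_place_transcendental (t : ℂ) (ht : Transcendental k t) (a : k) :
    ∃ V : ValuationSubring ℂ, V.valuation (t - algebraMap k ℂ a) < 1 ∧
      ∀ z : k, algebraMap k ℂ z ∈ V := by
  classical
  letI : Algebra (Polynomial k) ℂ := (Polynomial.aeval t : Polynomial k →ₐ[k] ℂ).toRingHom.toAlgebra
  have halg : ∀ P : Polynomial k, algebraMap (Polynomial k) ℂ P = Polynomial.aeval t P :=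
    fun _ => rfl
  have hinj : Function.Injective (algebraMap (Polynomial k) ℂ) :=
    transcendental_iff_injective.1 ht
  have hp : (Ideal.span {(Polynomial.X - Polynomial.C a : Polynomial k)}).IsPrime :=
    (Ideal.span_singleton_prime (Polynomial.X_sub_C_ne_zero a)).2 (Polynomial.prime_X_sub_C a)
  obtain ⟨V, hV1, hV2⟩ := Pool.Agent.Y152.BD.exists_place_gauss
    (Ideal.span {(Polynomial.X - Polynomial.C a : Polynomial k)}) (Empty.elim : Empty → ℂ)
    (algebraicIndependent_empty_type_iff.2 hinj)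
  refine ⟨V, ?_, fun z => ?_⟩
  · have h1 := (hV2 (C (Polynomial.X - Polynomial.C a))).2 (by
      rw [MvPolynomial.map_C]
      rw [Ideal.Quotient.eq_zero_iff_mem.2 (Ideal.mem_span_singleton_self _), C_0])
    rw [MvPolynomial.aeval_C, halg, map_sub, Polynomial.aeval_X, Polynomial.aeval_C] at h1
    exact h1
  · have h1 := hV1 (C (Polynomial.C z))
    rw [MvPolynomial.aeval_C, halg, Polynomial.aeval_C] at h1
    exact (ValuationSubring.valuation_le_one_iff _ _).1 h1

end Pool.Agent.Y199.ZF
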