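import Pool.Agent.Y199.DM.One
import Pool.Agent.Y199.ZF.Fam

/-!
Rational parameters near to given algebraic parameters (helper file).
-/

set_option autoImplicit false

namespace Pool.Agent.Y199.ZF

open Polynomial Pool.Agent.H936R2 Pool.Agent.TH838.PR Pool.Agent.Y152.BD Pool.Agent.Y199.DM

/-- The valuation ring of `ℂ` given by an embedding into the algebraic closure of `ℚ_p`. -/
noncomputable def ringOf {p : ℕ} [Fact p.Prime] (τ : ℂ →+* PadicAlgCl p) : ValuationSubring ℂ where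
  toSubring := (unitBall (PadicAlgCl p)).comap τ
  mem_or_inv_mem' := by
    intro x
    change ‖τ x‖ ≤ 1 ∨ ‖τ x⁻¹‖ ≤ 1
    rw [map_inv₀, norm_inv]
    rcases le_total ‖τ x‖ 1 with h | h
    · exact Or.inl h
    · exact Or.inr (inv_le_one_of_one_le₀ h)

theorem mem_ringOf {p : ℕ} [Fact p.Prime] (τ : ℂ →+* PadicAlgCl p) {x : ℂ} :
    x ∈ ringOf τ ↔ ‖τ x‖ ≤ 1 := Iff.rfl

theorem val_ringOf {p : ℕ} [Fact p.Prime] (τ : ℂ →+* PadicAlgCl p) {x : ℂ} (hx : ‖τ x‖ < 1) :
    (ringOf τ).valuation x < 1 := by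
  by_contra h
  push Not at h
  have hx0 : x ≠ 0 := by
    rintro rfl
    rw [map_zero] at h
    exact absurd h (not_le.2 zero_lt_one)
  have h1 : (ringOf τ).valuation x⁻¹ ≤ 1 := by
    rw [map_inv₀]
    exact inv_le_one_of_one_le₀ h
  have h2 := (mem_ringOf τ).1 ((ValuationSubring.valuation_le_one_iff _ _).1 h1)
  rw [map_inv₀, norm_inv] at h2
  have hpos : 0 < ‖τ x‖ := norm_pos_iff.2 ((map_ne_zero τ).2 hx0)
  have := one_lt_inv_iff₀.2 ⟨hpos, hx⟩
  linarith

/-- At most `C (log B)^s` of the rational numbers of denominator `v ≤ B` and numerator at most `B`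
have the property `P`, for some constants `C` and `s`. -/
def Few (P : ℚ → Prop) : Prop :=
  ∃ C s : ℕ, ∀ B v : ℕ, 2 ≤ B → v ≤ B → ∀ T : Finset ℚ,
    (∀ t ∈ T, t.den = v ∧ |t.num| ≤ B ∧ P t) → (T.card : ℝ) ≤ C * Real.log B ^ s

theorem Few.mono {P Q : ℚ → Prop} (h : Few Q) (hPQ : ∀ t, P t → Q t) : Few P := by
  obtain ⟨C, s, hC⟩ := h
  exact ⟨C, s, fun B v hB hv T hT => hC B v hB hv T fun t ht =>
    ⟨(hT t ht).1, (hT t ht).2.1, hPQ t (hT t ht).2.2⟩⟩

theorem log_bound {B : ℕ} (hB : 2 ≤ B) : (1 : ℝ) / 2 ≤ Real.log B := by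
  have h1 : (1 : ℝ) / 2 ≤ Real.log 2 := by
    have := Real.log_two_gt_d9
    linarith
  refine h1.trans (Real.log_le_log (by norm_num) ?_)
  exact_mod_cast hB

theorem pow_bound {B : ℕ} (hB : 2 ≤ B) {a s : ℕ} (h : a ≤ s) :
    Real.log B ^ a ≤ 2 ^ s * Real.log B ^ s := by
  have h1 := log_bound hB
  have h2 : (1 : ℝ) ≤ (2 * Real.log B) ^ (s - a) := one_le_pow₀ (by linarith)
  have h3 : (1 : ℝ) ≤ 2 ^ a := one_le_pow₀ one_le_two
  have h4 : 0 ≤ Real.log B ^ a := by positivity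
  calc Real.log B ^ a ≤ Real.log B ^ a * ((2 * Real.log B) ^ (s - a) * 2 ^ a) := by
        refine le_mul_of_one_le_right h4 ?_
        nlinarith
    _ = 2 ^ s * Real.log B ^ s := by
        obtain ⟨k, rfl⟩ := Nat.exists_eq_add_of_le h
        rw [Nat.add_sub_cancel_left, mul_pow, pow_add, pow_add]
        ring

theorem Few.exists {ι : Type} [Finite ι] {P : ι → ℚ → Prop} (h : ∀ i, Few (P i)) :
    Few fun t => ∃ i, P i t := by
  classical
  have : Fintype ι := Fintype.ofFinite ι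
  choose C s hC using h
  refine ⟨2 ^ (∑ i, s i) * ∑ i, C i, ∑ i, s i, fun B v hB hv T hT => ?_⟩
  have h1 : T ⊆ Finset.univ.biUnion fun i => T.filter fun t => P i t := by
    intro t ht
    obtain ⟨i, hi⟩ := (hT t ht).2.2
    exact Finset.mem_biUnion.2 ⟨i, Finset.mem_univ _, Finset.mem_filter.2 ⟨ht, hi⟩⟩
  have h2 : (T.card : ℝ) ≤ ∑ i, ((T.filter fun t => P i t).card : ℝ) := by
    have h3 := (Finset.card_le_card h1).trans Finset.card_biUnion_le
    exact_mod_cast h3
  refine h2.trans ?_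
  have hL : 0 ≤ Real.log B := by
    have := log_bound hB
    linarith
  calc ∑ i, ((T.filter fun t => P i t).card : ℝ)
      ≤ ∑ i, (C i : ℝ) * (2 ^ (∑ i, s i) * Real.log B ^ (∑ i, s i)) := by
        refine Finset.sum_le_sum fun i _ => ?_
        refine (hC i B v hB hv _ fun t ht => ?_).trans ?_
        · rw [Finset.mem_filter] at ht
          exact ⟨(hT t ht.1).1, (hT t ht.1).2.1, ht.2⟩
        · refine mul_le_mul_of_nonneg_left (pow_bound hB ?_) (Nat.cast_nonneg _)
          exact Finset.single_le_sum (f := s) (fun _ _ => Nat.zero_le _) (Finset.mem_univ i)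
    _ = ((2 ^ (∑ i, s i) * ∑ i, C i : ℕ) : ℝ) * Real.log B ^ (∑ i, s i) := by
        rw [← Finset.sum_mul]
        push_cast
        ring

theorem few_finite {E : Set ℚ} (hE : E.Finite) : Few fun t => t ∈ E := by
  classical
  refine ⟨hE.toFinset.card, 0, fun B v _ _ T hT => ?_⟩
  rw [pow_zero, mul_one]
  exact_mod_cast Finset.card_le_card fun t ht => (Set.Finite.mem_toFinset hE).2 (hT t ht).2.2

/-- For all but few rational numbers `t` there is a large prime `p` such that `t` is near to a given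
algebraic number at an embedding of `ℂ` into the algebraic closure of `ℚ_p` for which the elements
of a given finite set are integral. -/
theorem few_far (s : Finset ℂ) (α : ℂ) (hα : IsAlgebraic ℚ α) :
    Few fun t => ¬ ∃ (p : ℕ) (_ : Fact p.Prime) (τ : ℂ →+* PadicAlgCl p),
      (∀ x ∈ s, ‖τ x‖ ≤ 1) ∧ ‖τ ((t : ℚ) : ℂ)‖ ≤ 1 ∧ ‖τ α - τ ((t : ℚ) : ℂ)‖ < 1 := by
  classical
  obtain ⟨P, hP0, hPα⟩ := (IsFractionRing.isAlgebraic_iff ℤ ℚ ℂ).mpr hα
  obtain ⟨G, hG, -, hGα⟩ := DegLE.exists_irreducible (d := P.natDegree) (τ := α)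
    ⟨P, hP0, le_rfl, hPα⟩
  have hGdeg : G.natDegree ≠ 0 := by
    intro h0
    rw [Polynomial.eq_C_of_natDegree_eq_zero h0] at hGα hG
    rw [aeval_C] at hGα
    have h1 : G.coeff 0 = 0 := by
      have h2 : ((G.coeff 0 : ℤ) : ℂ) = 0 := hGα
      exact_mod_cast h2
    rw [h1, C_0] at hG
    exact not_irreducible_zero hG
  obtain ⟨D, hD⟩ := emb_alg_near s α G hG hGα
  obtain ⟨C, r, hC⟩ := card_exceptions_le G hGdeg (D + G.leadingCoeff.natAbs)
  refine ⟨C, r, fun B v hB hv T hT => hC B v hB hv T fun t ht => ?_⟩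
  obtain ⟨hden, hnum, hbad⟩ := hT t ht
  -- the embeddings
  have key : ∀ p : ℕ, p.Prime → D < p → ¬ p ∣ t.den → ¬ (p : ℤ) ∣ Nv G t := by
    intro p hp hlt hpden hdvd
    haveI : Fact p.Prime := ⟨hp⟩
    obtain ⟨τ, hτ, hτα⟩ := hD p hlt t hpden hdvd
    refine hbad ⟨p, ⟨hp⟩, τ, hτ, ?_, ?_⟩
    · rw [map_ratCast]
      have := Pool.Agent.TH838.PR.norm_rat_le_one (p := p) t hpden
      rwa [eq_ratCast] at this
    · rw [map_ratCast]
      exact hτα
  refine ⟨hden, hnum, fun h0 => ?_, fun p hp hdvd => ?_⟩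
  · obtain ⟨p, hpD, hp⟩ := Nat.exists_infinite_primes (D + t.den + 1)
    refine key p hp (by omega) (fun hdvd => ?_) (by rw [h0]; exact dvd_zero _)
    have := Nat.le_of_dvd t.den_pos hdvd
    omega
  · by_contra hlt
    push Not at hlt
    by_cases hpden : p ∣ t.den
    · have h1 : (p : ℤ) ∣ G.coeff G.natDegree * t.num ^ G.natDegree := by
        have h2 : Nv G t = (∑ i ∈ Finset.range G.natDegree,
            G.coeff i * t.num ^ i * (t.den : ℤ) ^ (G.natDegree - i)) +
              G.coeff G.natDegree * t.num ^ G.natDegree := by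
          rw [Nv, Finset.sum_range_succ, Nat.sub_self, pow_zero, mul_one]
        have h3 : (p : ℤ) ∣ ∑ i ∈ Finset.range G.natDegree,
            G.coeff i * t.num ^ i * (t.den : ℤ) ^ (G.natDegree - i) := by
          refine Finset.dvd_sum fun i hi => ?_
          rw [Finset.mem_range] at hi
          refine Dvd.dvd.mul_left ?_ _
          exact dvd_pow (Int.natCast_dvd_natCast.2 hpden) (by omega)
        rw [h2] at hdvd
        exact (Int.dvd_add_right h3).1 hdvd
      have h4 : ¬ (p : ℤ) ∣ t.num := by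
        intro h5
        have h6 := t.reduced
        have h7 : p ∣ t.num.natAbs := Int.natCast_dvd.1 h5
        have h8 := Nat.dvd_gcd h7 hpden
        rw [h6] at h8
        exact hp.one_lt.ne' (Nat.dvd_one.1 h8)
      have hpp : Prime (p : ℤ) := Nat.prime_iff_prime_int.1 hp
      have h5 : (p : ℤ) ∣ G.leadingCoeff := by
        rcases hpp.dvd_or_dvd h1 with h6 | h6
        · exact h6
        · exact absurd (hpp.dvd_of_dvd_pow h6) h4
      have h6 := Nat.le_of_dvd (Int.natAbs_pos.2 (leadingCoeff_ne_zero.2 hG.ne_zero))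
        (Int.natCast_dvd.1 h5)
      omega
    · exact key p hp (by omega) hpden hdvd

end Pool.Agent.Y199.ZF
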